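import Pool.Agent.Helper70.OB.GoalsP

/-! Packet PL-CHG of helper70: the radial equations without atom terms. -/

open MeasureTheory Set Metric Filter
open scoped ENNReal Topology
open Pool.Agent.Results.MP_91ee6f_gt
open Pool.Agent.Helper70.MM (om om_zero om_one om_rel om_pos om_hasDerivAt om_le om_measurable)

namespace Pool.Agent.Helper87.OB

open Pool.Agent.Helper70.OB

lemma om_nonneg (j : ℕ) {s : ℝ} (hs : 0 ≤ s) : 0 ≤ om j s := by
  rcases hs.eq_or_lt with h | h
  · subst h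
    match j with
    | 0 => rw [om_zero]; positivity
    | 1 => rw [om_one]; simp
    | (j+2) => rw [Pool.Agent.Helper70.MM.om_succ_succ]; simp
  · exact (om_pos j h).le

lemma single_zero {n : ℕ} (hn : 2 ≤ n) {τ : Measure (En n)} [IsFiniteMeasure τ] (hτ : Rot τ)
    {x : En n} (hx : x ≠ 0) : τ {x} = 0 := by
  by_contra h
  have hinf : (sphere (0 : En n) ‖x‖).Infinite := by
    have h1 : 1 < Module.rank ℝ (En n) := by
      rw [← Module.finrank_eq_rank]
      simp only [finrank_euclideanSpace, Fintype.card_fin]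
      exact_mod_cast (by omega : 1 < n)
    have h2 := isPreconnected_sphere h1 (0 : En n) ‖x‖
    refine h2.infinite_of_nontrivial ⟨x, by simp, -x, by simp, ?_⟩
    intro h
    have h5 : x + x = 0 := by nth_rewrite 2 [h]; simp
    rw [← two_smul ℝ x] at h5
    exact hx ((smul_eq_zero.1 h5).resolve_left two_ne_zero)
  have h3 := hinf.meas_eq_top (μ := τ) ⟨τ {x}, h, fun y hy => ?_⟩
  · exact measure_ne_top τ _ h3
  · have hxy : ‖x‖ = ‖y‖ := (mem_sphere_zero_iff_norm.1 hy).symm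
    have h1 := Submodule.reflection_sub hxy
    have h4 : τ.map ((ℝ ∙ (x - y))ᗮ.reflection) {y} =
        τ (((ℝ ∙ (x - y))ᗮ.reflection) ⁻¹' {y}) :=
      (((ℝ ∙ (x - y))ᗮ.reflection).toHomeomorph.measurableEmbedding).map_apply τ _
    rw [hτ _] at h4
    rw [h4]
    exact measure_mono (by simpa using h1)

lemma bd (hR : RADI) {n : ℕ} (hn : 1 ≤ n) (τ : Measure (En n)) [IsFiniteMeasure τ] (hτ : Rot τ)
    (e : En n) (he : ‖e‖ = 1) (h : ℝ → ℝ≥0∞) (hh : Measurable h) {r : ℝ} (hr : 0 < r) :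
    ∫⁻ u in Ioc 0 r, ENNReal.ofReal (u ^ (n - 1)) * ∫⁻ y, h (dist (u • e) y) ∂τ ≤
      τ univ * ∫⁻ s in Ioi (0 : ℝ), ENNReal.ofReal (s ^ (n - 1)) * h s := by
  have : Nonempty (Fin n) := ⟨⟨0, hn⟩⟩
  have : Nontrivial (En n) := inferInstance
  obtain ⟨h1, h2⟩ := hR n hn τ inferInstance hτ e he h hh
  have h3 := h1 r hr
  set c : ℝ≥0∞ := (n : ℝ≥0∞) * volume (ball (0 : En n) 1) with hc
  have hc0 : c ≠ 0 := by
    rw [hc]
    refine mul_ne_zero ?_ (measure_ball_pos _ _ one_pos).ne'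
    have : n ≠ 0 := by omega
    exact_mod_cast this
  have hct : c ≠ ∞ := ENNReal.mul_ne_top (ENNReal.natCast_ne_top n) measure_ball_lt_top.ne
  have h4 : ∀ y : En n, ∫⁻ x in ball (0 : En n) r, h (dist x y) ≤
      c * ∫⁻ s in Ioi (0 : ℝ), ENNReal.ofReal (s ^ (n - 1)) * h s := by
    intro y
    rw [← h2 y 0 le_rfl]
    calc ∫⁻ x in ball (0 : En n) r, h (dist x y) ≤ ∫⁻ x, h (dist x y) :=
          setLIntegral_le_lintegral _ _
      _ = ∫⁻ x in {x : En n | 0 < dist x y}, h (dist x y) := by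
        have : ({x : En n | 0 < dist x y} : Set (En n)) = {y}ᶜ := by ext x; simp [dist_pos]
        rw [this, restrict_compl_singleton]
  have h5 : c * ∫⁻ u in Ioo 0 r, ENNReal.ofReal (u ^ (n - 1)) * ∫⁻ y, h (dist (u • e) y) ∂τ ≤
      c * (τ univ * ∫⁻ s in Ioi (0 : ℝ), ENNReal.ofReal (s ^ (n - 1)) * h s) := by
    rw [h3]
    calc ∫⁻ y, (∫⁻ x in ball (0 : En n) r, h (dist x y)) ∂τ ≤
        ∫⁻ y, (c * ∫⁻ s in Ioi (0 : ℝ), ENNReal.ofReal (s ^ (n - 1)) * h s) ∂τ :=
          lintegral_mono h4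
      _ = _ := by rw [lintegral_const]; ring
  rw [← Measure.restrict_congr_set Ioo_ae_eq_Ioc]
  exact (ENNReal.mul_le_mul_iff_right hc0 hct).1 h5

lemma rint (hR : RADI) {n : ℕ} (hn : 1 ≤ n) (τ : Measure (En n)) [IsFiniteMeasure τ] (hτ : Rot τ)
    (e : En n) (he : ‖e‖ = 1) (h : ℝ → ℝ) (hh : Measurable h) (h0 : ∀ s, 0 ≤ s → 0 ≤ h s)
    (hi : IntegrableOn (fun s : ℝ => s ^ (n - 1) * h s) (Ioi 0)) {r : ℝ} (hr : 0 < r) :
    (∀ᵐ u ∂(volume.restrict (Ioc 0 r)), Integrable (fun y => h (dist (u • e) y)) τ) ∧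
    IntegrableOn (fun u => u ^ (n - 1) * ∫ y, h (dist (u • e) y) ∂τ) (Ioc 0 r) ∧
    ∫ u in Ioc 0 r, u ^ (n - 1) * ∫ y, h (dist (u • e) y) ∂τ ≤
      τ.real univ * ∫ s in Ioi (0 : ℝ), s ^ (n - 1) * h s := by
  have hH : Measurable (fun s => ENNReal.ofReal (h s)) := by fun_prop
  have hb := bd hR hn τ hτ e he _ hH hr
  have hI : ∫⁻ s in Ioi (0 : ℝ), ENNReal.ofReal (s ^ (n - 1)) * ENNReal.ofReal (h s) =
      ENNReal.ofReal (∫ s in Ioi (0 : ℝ), s ^ (n - 1) * h s) := by
    rw [ofReal_integral_eq_lintegral_ofReal hi]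
    · refine setLIntegral_congr_fun measurableSet_Ioi fun s hs => ?_
      have hs' : 0 < s := hs
      rw [ENNReal.ofReal_mul (by positivity)]
    · refine (ae_restrict_iff' measurableSet_Ioi).mpr (Eventually.of_forall fun s hs => ?_)
      have hs' : 0 < s := hs
      exact mul_nonneg (by positivity) (h0 s hs'.le)
  rw [hI] at hb
  have hGm : Measurable fun u : ℝ => ∫⁻ y, ENNReal.ofReal (h (dist (u • e) y)) ∂τ := by
    refine Measurable.lintegral_prod_right ?_
    fun_prop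
  have hΦm : Measurable fun u : ℝ => ENNReal.ofReal (u ^ (n - 1)) *
      ∫⁻ y, ENNReal.ofReal (h (dist (u • e) y)) ∂τ := by
    exact (by fun_prop : Measurable fun u : ℝ => ENNReal.ofReal (u ^ (n - 1))).mul hGm
  have hfin : ∫⁻ u in Ioc 0 r, ENNReal.ofReal (u ^ (n - 1)) *
      ∫⁻ y, ENNReal.ofReal (h (dist (u • e) y)) ∂τ ≠ ∞ :=
    (lt_of_le_of_lt hb (ENNReal.mul_lt_top (measure_lt_top τ _) ENNReal.ofReal_lt_top)).ne
  have hae := ae_lt_top hΦm hfin
  have hpos : ∀ᵐ u ∂(volume.restrict (Ioc 0 r)), 0 < u :=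
    (ae_restrict_iff' measurableSet_Ioc).mpr (Eventually.of_forall fun s hs => hs.1)
  have heq : ∀ u : ℝ, 0 < u → u ^ (n - 1) * ∫ y, h (dist (u • e) y) ∂τ =
      (ENNReal.ofReal (u ^ (n - 1)) * ∫⁻ y, ENNReal.ofReal (h (dist (u • e) y)) ∂τ).toReal := by
    intro u hu
    rw [integral_eq_lintegral_of_nonneg_ae (Eventually.of_forall fun y => h0 _ dist_nonneg)
      (hh.comp (by fun_prop)).aestronglyMeasurable, ENNReal.toReal_mul, ENNReal.toReal_ofReal (by positivity)]
  have heq' : ∀ᵐ u ∂(volume.restrict (Ioc 0 r)), (ENNReal.ofReal (u ^ (n - 1)) *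
      ∫⁻ y, ENNReal.ofReal (h (dist (u • e) y)) ∂τ).toReal =
        u ^ (n - 1) * ∫ y, h (dist (u • e) y) ∂τ := by
    filter_upwards [hpos] with u hu using (heq u hu).symm
  refine ⟨?_, ?_, ?_⟩
  · filter_upwards [hae, hpos] with u hu hu0
    refine ⟨(hh.comp (by fun_prop)).aestronglyMeasurable, ?_⟩
    rw [hasFiniteIntegral_iff_ofReal (Eventually.of_forall fun y => h0 _ dist_nonneg)]
    by_contra hcon
    rw [not_lt, top_le_iff] at hcon
    rw [hcon, ENNReal.mul_top] at hu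
    · exact lt_irrefl _ hu
    · rw [Ne, ENNReal.ofReal_eq_zero, not_le]
      positivity
  · exact (integrable_toReal_of_lintegral_ne_top hΦm.aemeasurable hfin).congr heq'
  · rw [← integral_congr_ae heq', integral_toReal hΦm.aemeasurable hae]
    have hA : 0 ≤ ∫ s in Ioi (0 : ℝ), s ^ (n - 1) * h s := by
      refine setIntegral_nonneg measurableSet_Ioi fun s hs => ?_
      have hs' : 0 < s := hs
      exact mul_nonneg (by positivity) (h0 s hs'.le)
    have h1 := ENNReal.toReal_mono (ENNReal.mul_lt_top (measure_lt_top τ _)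
      ENNReal.ofReal_lt_top).ne hb
    rwa [ENNReal.toReal_mul, ENNReal.toReal_ofReal hA] at h1

lemma sq_ge {ε : ℝ} (hε : 0 < ε) (d : ℝ) : ε ≤ Real.sqrt (d ^ 2 + ε ^ 2) :=
  Real.le_sqrt_of_sq_le (by nlinarith [sq_nonneg d])

lemma sq_ge' (ε d : ℝ) : d ≤ Real.sqrt (d ^ 2 + ε ^ 2) :=
  Real.le_sqrt_of_sq_le (by nlinarith [sq_nonneg ε])

lemma reg_int {n : ℕ} (τ : Measure (En n)) [IsFiniteMeasure τ] (x : En n) (i : ℕ) {ε : ℝ}
    (hε : 0 < ε) : Integrable (fun y => om i (Real.sqrt (dist x y ^ 2 + ε ^ 2))) τ := by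
  refine Integrable.mono' (integrable_const (om i ε)) ?_ ?_
  · refine Measurable.aestronglyMeasurable ?_
    exact (om_measurable i).comp (by fun_prop)
  · refine Eventually.of_forall fun y => ?_
    have h1 := om_pos i (lt_of_lt_of_le hε (sq_ge hε (dist x y)))
    rw [Real.norm_eq_abs, abs_of_pos h1]
    exact om_le i hε (sq_ge hε _)

lemma ae_pos {n : ℕ} (hn : 2 ≤ n) {τ : Measure (En n)} [IsFiniteMeasure τ] (hτ : Rot τ)
    {x : En n} (hx : x ≠ 0) : ∀ᵐ y ∂τ, 0 < dist x y := by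
  have h1 := single_zero hn hτ hx
  have h2 : ∀ᵐ y ∂τ, y ≠ x := by
    rw [ae_iff]
    simpa using h1
  filter_upwards [h2] with y hy
  exact dist_pos.2 hy.symm

lemma gr_nonneg {n : ℕ} (τ : Measure (En n)) (e : En n) (ε : ℝ) (i : ℕ) (u : ℝ) :
    0 ≤ gr τ e ε i u :=
  integral_nonneg fun y => om_nonneg i (Real.sqrt_nonneg _)

lemma gr_le {n : ℕ} (hn : 2 ≤ n) {τ : Measure (En n)} [IsFiniteMeasure τ] (hτ : Rot τ)
    {e : En n} (he : ‖e‖ = 1) {ε : ℝ} (hε : 0 < ε) {i : ℕ} {u : ℝ} (hu : 0 < u)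
    (hi : Integrable (fun y => om i (dist (u • e) y)) τ) : gr τ e ε i u ≤ gj τ e i u := by
  have hx : u • e ≠ 0 := by
    intro h
    have := congrArg norm h
    rw [norm_smul, he, mul_one, norm_zero, norm_eq_zero] at this
    exact hu.ne' this
  refine integral_mono_ae (reg_int τ _ i hε) hi ?_
  filter_upwards [ae_pos hn hτ hx] with y hy
  exact om_le i hy (sq_ge' ε _)

lemma gr_tendsto {n : ℕ} (hn : 2 ≤ n) {τ : Measure (En n)} [IsFiniteMeasure τ] (hτ : Rot τ)
    {e : En n} (he : ‖e‖ = 1) {ε : ℕ → ℝ} (hε : ∀ m, 0 < ε m) (hε0 : Tendsto ε atTop (𝓝 0))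
    {i : ℕ} {u : ℝ} (hu : 0 < u) (hi : Integrable (fun y => om i (dist (u • e) y)) τ) :
    Tendsto (fun m => gr τ e (ε m) i u) atTop (𝓝 (gj τ e i u)) := by
  have hx : u • e ≠ 0 := by
    intro h
    have := congrArg norm h
    rw [norm_smul, he, mul_one, norm_zero, norm_eq_zero] at this
    exact hu.ne' this
  refine tendsto_integral_of_dominated_convergence (fun y => om i (dist (u • e) y))
    (fun m => (reg_int τ _ i (hε m)).1) hi ?_ ?_
  · intro m
    filter_upwards [ae_pos hn hτ hx] with y hy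
    rw [Real.norm_eq_abs, abs_of_nonneg (om_nonneg i (Real.sqrt_nonneg _))]
    exact om_le i hy (sq_ge' _ _)
  · filter_upwards [ae_pos hn hτ hx] with y hy
    have h1 : Tendsto (fun m => Real.sqrt (dist (u • e) y ^ 2 + ε m ^ 2)) atTop
        (𝓝 (Real.sqrt (dist (u • e) y ^ 2 + 0 ^ 2))) :=
      (Real.continuous_sqrt.tendsto _).comp (tendsto_const_nhds.add (hε0.pow 2))
    have h2 : Real.sqrt (dist (u • e) y ^ 2 + 0 ^ 2) = dist (u • e) y := by
      rw [zero_pow two_ne_zero, add_zero, Real.sqrt_sq hy.le]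
    rw [h2] at h1
    exact ((om_hasDerivAt i hy).continuousAt.tendsto).comp h1

/-- Packet PL-CHG. -/
theorem chg (hO : OMG) (hM : MASG) (hG : REG) (hR : RADI) : CHG := by
  intro n j hn hj τ hfin hτ e he
  have hn1 : 1 ≤ n := by omega
  set a : ℝ := (n : ℝ) - 1 - 2 * j with ha
  have hi : ∀ i, 2 * i ≤ n → IntegrableOn (fun s : ℝ => s ^ (n - 1) * om i s) (Ioi 0) :=
    fun i h => (hO n i hn1 h).1
  have K1 : ∀ i, 2 * i ≤ n → ∀ r : ℝ, 0 < r →
      (∀ᵐ u ∂(volume.restrict (Ioc 0 r)), Integrable (fun y => om i (dist (u • e) y)) τ) ∧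
      IntegrableOn (fun u => u ^ (n - 1) * gj τ e i u) (Ioc 0 r) := by
    intro i h r hr
    have h1 := rint hR hn1 τ hτ e he (om i) (om_measurable i) (fun s hs => om_nonneg i hs)
      (hi i h) hr
    exact ⟨h1.1, h1.2.1⟩
  have hcont : ∀ ε : ℝ, 0 < ε → ∀ i, Continuous (gr τ e ε i) :=
    fun ε hε i => (hG n hn τ hfin hτ e he ε hε i).1
  obtain ⟨hM1, hM2⟩ := hM n j hn1 hj
  have K2 : ∀ ε : ℝ, 0 < ε → ∀ r : ℝ, 0 < r →
      ∫ u in Ioc 0 r, u ^ (n - 1) * (ε ^ 2 * gr τ e ε (j + 2) u) ≤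
      τ.real univ * ∫ s in Ioi (0 : ℝ), s ^ (n - 1) *
        (ε ^ 2 * om (j + 2) (Real.sqrt (s ^ 2 + ε ^ 2))) := by
    intro ε hε r hr
    have h1 := (rint hR hn1 τ hτ e he (fun s => ε ^ 2 * om (j + 2) (Real.sqrt (s ^ 2 + ε ^ 2)))
      (((om_measurable (j + 2)).comp (by fun_prop)).const_mul _)
      (fun s hs => mul_nonneg (by positivity) (om_nonneg _ (Real.sqrt_nonneg _)))
      (hM1 ε hε).1 hr).2.2
    refine le_trans (le_of_eq ?_) h1
    refine integral_congr_ae (Eventually.of_forall fun u => ?_)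
    simp only [gr]
    rw [integral_const_mul]
  -- the sequence
  set ε : ℕ → ℝ := fun m => 1 / ((m : ℝ) + 1) with hεdef
  have hε : ∀ m, 0 < ε m := fun m => by rw [hεdef]; positivity
  have hε0 : Tendsto ε atTop (𝓝 0) := tendsto_one_div_add_atTop_nhds_zero_nat
  have hε1 : Tendsto ε atTop (𝓝[>] 0) :=
    tendsto_nhdsWithin_iff.2 ⟨hε0, Eventually.of_forall hε⟩
  -- notation for the fluxes
  set P : ℕ → ℝ → ℝ := fun m t => ∫ u in (0 : ℝ)..t, u ^ (n - 1) * (gr τ e (ε m) j u -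
        a * gr τ e (ε m) (j + 1) u - (ε m) ^ 2 * gr τ e (ε m) (j + 2) u) with hP
  have hder : ∀ m, ∀ r : ℝ, 0 < r → HasDerivAt (gr τ e (ε m) j) (P m r / r ^ (n - 1)) r :=
    fun m r hr => (hG n hn τ hfin hτ e he (ε m) (hε m) j).2 r hr
  set E1 : ℝ → ℕ → ℝ := fun M m => ∫ u in Ioc 0 M, |u ^ (n - 1) *
    ((gr τ e (ε m) j u - gj τ e j u) - a * (gr τ e (ε m) (j + 1) u - gj τ e (j + 1) u))| with hE1
  set E2 : ℝ → ℕ → ℝ := fun M m => ∫ u in Ioc 0 M, u ^ (n - 1) *
    ((ε m) ^ 2 * gr τ e (ε m) (j + 2) u) with hE2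
  have hposae : ∀ r : ℝ, ∀ᵐ u ∂(volume.restrict (Ioc 0 r)), 0 < u := fun r =>
    (ae_restrict_iff' measurableSet_Ioc).mpr (Eventually.of_forall fun s hs => hs.1)
  have hgrI : ∀ (m i : ℕ) (M : ℝ), IntegrableOn (fun u => u ^ (n - 1) * gr τ e (ε m) i u)
      (Ioc 0 M) := fun m i M =>
    ((continuous_id.pow (n - 1)).mul (hcont (ε m) (hε m) i)).integrableOn_Ioc
  have hE1lim : ∀ M : ℝ, 0 < M → Tendsto (E1 M) atTop (𝓝 0) := by
    intro M hM0
    obtain ⟨h1, h2⟩ := K1 j (by omega) M hM0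
    obtain ⟨h3, h4⟩ := K1 (j + 1) hj M hM0
    have h5 : Tendsto (E1 M) atTop (𝓝 (∫ u in Ioc 0 M, (0 : ℝ))) := by
      refine tendsto_integral_of_dominated_convergence
        (fun u => u ^ (n - 1) * gj τ e j u + |a| * (u ^ (n - 1) * gj τ e (j + 1) u)) ?_ ?_ ?_ ?_
      · intro m
        have h6 := ((hgrI m j M).sub h2).sub (((hgrI m (j + 1) M).sub h4).const_mul a)
        refine (h6.congr ?_).abs.1
        refine Eventually.of_forall fun u => ?_
        simp only [Pi.sub_apply]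
        ring
      · exact h2.add (h4.const_mul |a|)
      · intro m
        filter_upwards [h1, h3, hposae M] with u hu1 hu3 hu0
        have a1 := gr_nonneg τ e (ε m) j u
        have a2 := gr_nonneg τ e (ε m) (j + 1) u
        have a3 := gr_le hn hτ he (hε m) hu0 hu1
        have a4 := gr_le hn hτ he (hε m) hu0 hu3
        rw [Real.norm_eq_abs, abs_abs, abs_mul, abs_of_pos (pow_pos hu0 _)]
        have a5 : |gr τ e (ε m) j u - gj τ e j u -
            a * (gr τ e (ε m) (j + 1) u - gj τ e (j + 1) u)| ≤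
            gj τ e j u + |a| * gj τ e (j + 1) u := by
          refine (abs_sub _ _).trans (add_le_add ?_ ?_)
          · rw [abs_le]; constructor <;> linarith
          · rw [abs_mul]
            refine mul_le_mul_of_nonneg_left ?_ (abs_nonneg a)
            rw [abs_le]; constructor <;> linarith
        calc u ^ (n - 1) * |gr τ e (ε m) j u - gj τ e j u -
            a * (gr τ e (ε m) (j + 1) u - gj τ e (j + 1) u)| ≤
            u ^ (n - 1) * (gj τ e j u + |a| * gj τ e (j + 1) u) :=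
              mul_le_mul_of_nonneg_left a5 (pow_pos hu0 _).le
          _ = _ := by ring
      · filter_upwards [h1, h3, hposae M] with u hu1 hu3 hu0
        have b1 := gr_tendsto hn hτ he hε hε0 hu0 hu1
        have b2 := gr_tendsto hn hτ he hε hε0 hu0 hu3
        have b3 : Tendsto (fun m => |u ^ (n - 1) * ((gr τ e (ε m) j u - gj τ e j u) -
            a * (gr τ e (ε m) (j + 1) u - gj τ e (j + 1) u))|) atTop
            (𝓝 |u ^ (n - 1) * ((gj τ e j u - gj τ e j u) -
            a * (gj τ e (j + 1) u - gj τ e (j + 1) u))|) :=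
          (((b1.sub_const _).sub ((b2.sub_const _).const_mul a)).const_mul _).abs
        simpa using b3
    simpa using h5
  have hE2nn : ∀ M : ℝ, ∀ m, 0 ≤ E2 M m := fun M m =>
    setIntegral_nonneg measurableSet_Ioc fun u hu =>
      mul_nonneg (pow_pos hu.1 _).le (mul_nonneg (sq_nonneg _) (gr_nonneg _ _ _ _ _))
  have hE1nn : ∀ M : ℝ, ∀ m, 0 ≤ E1 M m := fun M m =>
    setIntegral_nonneg measurableSet_Ioc fun u hu => abs_nonneg _
  have hE2lim : ∀ M : ℝ, 0 < M → Tendsto (E2 M) atTop (𝓝 0) := by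
    intro M hM0
    have h1 : Tendsto (fun m => τ.real univ * ∫ s in Ioi (0 : ℝ), s ^ (n - 1) *
        ((ε m) ^ 2 * om (j + 2) (Real.sqrt (s ^ 2 + (ε m) ^ 2)))) atTop
          (𝓝 (τ.real univ * 0)) := (hM2.comp hε1).const_mul _
    rw [mul_zero] at h1
    exact squeeze_zero (hE2nn M) (fun m => K2 (ε m) (hε m) M hM0) h1
  set pe' : ℝ → ℝ := pe τ e j with hpe
  have hpeI : ∀ M : ℝ, 0 < M → IntegrableOn (fun u => u ^ (n - 1) *
      (gj τ e j u - a * gj τ e (j + 1) u)) (Ioc 0 M) := by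
    intro M hM0
    have h2 := (K1 j (by omega) M hM0).2
    have h4 := (K1 (j + 1) hj M hM0).2
    refine (h2.sub (h4.const_mul a)).congr (Eventually.of_forall fun u => ?_)
    simp only [Pi.sub_apply]
    ring
  have hPI : ∀ m, ∀ M : ℝ, IntegrableOn (fun u => u ^ (n - 1) * (gr τ e (ε m) j u -
        a * gr τ e (ε m) (j + 1) u - (ε m) ^ 2 * gr τ e (ε m) (j + 2) u)) (Ioc 0 M) := by
    intro m M
    refine (((hgrI m j M).sub ((hgrI m (j + 1) M).const_mul a)).sub
      ((hgrI m (j + 2) M).const_mul ((ε m) ^ 2))).congr (Eventually.of_forall fun u => ?_)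
    simp only [Pi.sub_apply]
    ring
  -- difference of the fluxes
  have hdiff : ∀ M : ℝ, 0 < M → ∀ m, ∀ t : ℝ, 0 < t → t ≤ M →
      |P m t - pe' t| ≤ E1 M m + E2 M m := by
    intro M hM0 m t ht htM
    have h1 : P m t - pe' t = ∫ u in Ioc 0 t, (u ^ (n - 1) * (gr τ e (ε m) j u -
        a * gr τ e (ε m) (j + 1) u - (ε m) ^ 2 * gr τ e (ε m) (j + 2) u) -
        u ^ (n - 1) * (gj τ e j u - a * gj τ e (j + 1) u)) := by
      rw [integral_sub (hPI m t) (hpeI t ht), hP, hpe, pe]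
      simp only
      rw [intervalIntegral.integral_of_le ht.le, intervalIntegral.integral_of_le ht.le]
    have hAI : IntegrableOn (fun u => |u ^ (n - 1) * ((gr τ e (ε m) j u - gj τ e j u) -
        a * (gr τ e (ε m) (j + 1) u - gj τ e (j + 1) u))|) (Ioc 0 M) := by
      obtain ⟨-, h2⟩ := K1 j (by omega) M hM0
      obtain ⟨-, h4⟩ := K1 (j + 1) hj M hM0
      have h6 := ((hgrI m j M).sub h2).sub (((hgrI m (j + 1) M).sub h4).const_mul a)
      refine (h6.congr ?_).abs
      refine Eventually.of_forall fun u => ?_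
      simp only [Pi.sub_apply]
      ring
    have hBI : IntegrableOn (fun u => u ^ (n - 1) * ((ε m) ^ 2 * gr τ e (ε m) (j + 2) u))
        (Ioc 0 M) := by
      refine ((hgrI m (j + 2) M).const_mul ((ε m) ^ 2)).congr
        (Eventually.of_forall fun u => ?_)
      simp only
      ring
    rw [h1]
    have h7 : E1 M m + E2 M m = ∫ u in Ioc 0 M, (|u ^ (n - 1) * ((gr τ e (ε m) j u -
        gj τ e j u) - a * (gr τ e (ε m) (j + 1) u - gj τ e (j + 1) u))| +
        u ^ (n - 1) * ((ε m) ^ 2 * gr τ e (ε m) (j + 2) u)) := by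
      rw [integral_add hAI hBI]
    rw [h7]
    have hsub : Ioc (0 : ℝ) t ⊆ Ioc 0 M := Ioc_subset_Ioc_right htM
    refine (abs_integral_le_integral_abs).trans ?_
    refine le_trans ?_ (setIntegral_mono_set (hAI.add hBI) ?_ hsub.eventuallyLE)
    · refine setIntegral_mono_on ?_ ((hAI.add hBI).mono_set hsub) measurableSet_Ioc ?_
      · exact ((hPI m t).sub (hpeI t ht)).abs
      · intro u hu
        have hu0 : 0 < u := hu.1
        have c1 : 0 ≤ u ^ (n - 1) * ((ε m) ^ 2 * gr τ e (ε m) (j + 2) u) :=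
          mul_nonneg (pow_pos hu0 _).le (mul_nonneg (sq_nonneg _) (gr_nonneg _ _ _ _ _))
        have c2 : u ^ (n - 1) * (gr τ e (ε m) j u -
            a * gr τ e (ε m) (j + 1) u - (ε m) ^ 2 * gr τ e (ε m) (j + 2) u) -
            u ^ (n - 1) * (gj τ e j u - a * gj τ e (j + 1) u) =
            u ^ (n - 1) * ((gr τ e (ε m) j u - gj τ e j u) -
            a * (gr τ e (ε m) (j + 1) u - gj τ e (j + 1) u)) -
            u ^ (n - 1) * ((ε m) ^ 2 * gr τ e (ε m) (j + 2) u) := by ring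
        rw [c2]
        refine (abs_sub _ _).trans ?_
        rw [abs_of_nonneg c1]
    · refine (ae_restrict_iff' measurableSet_Ioc).mpr (Eventually.of_forall fun u hu => ?_)
      exact add_nonneg (abs_nonneg _) (mul_nonneg (pow_pos hu.1 _).le
        (mul_nonneg (sq_nonneg _) (gr_nonneg _ _ _ _ _)))
  have hpeb : ∀ M : ℝ, 0 < M → ∀ t : ℝ, 0 < t → t ≤ M → |pe' t| ≤
      ∫ u in Ioc 0 M, |u ^ (n - 1) * (gj τ e j u - a * gj τ e (j + 1) u)| := by
    intro M hM0 t ht htM
    rw [hpe, pe, intervalIntegral.integral_of_le ht.le]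
    refine (abs_integral_le_integral_abs).trans ?_
    refine setIntegral_mono_set (hpeI M hM0).abs ?_ (Ioc_subset_Ioc_right htM).eventuallyLE
    exact Eventually.of_forall fun u => abs_nonneg _
  -- uniform bound of the fluxes
  have hPb : ∀ M : ℝ, 0 < M → ∃ C : ℝ, 0 ≤ C ∧ ∀ m, ∀ t : ℝ, 0 < t → t ≤ M → |P m t| ≤ C := by
    intro M hM0
    have h1 : Tendsto (fun m => E1 M m + E2 M m) atTop (𝓝 (0 + 0)) :=
      (hE1lim M hM0).add (hE2lim M hM0)
    obtain ⟨B, hB⟩ := h1.bddAbove_range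
    have h30 := hpeb M hM0
    set I0 : ℝ := ∫ u in Ioc 0 M, |u ^ (n - 1) * (gj τ e j u - a * gj τ e (j + 1) u)| with hI0
    refine ⟨|B| + |I0|, by positivity, ?_⟩
    intro m t ht htM
    have h2 := hdiff M hM0 m t ht htM
    have h3 := h30 t ht htM
    have h4 : E1 M m + E2 M m ≤ B := hB ⟨m, rfl⟩
    have h5 : |P m t| ≤ |P m t - pe' t| + |pe' t| := by
      have := abs_add_le (P m t - pe' t) (pe' t)
      rwa [sub_add_cancel] at this
    have h6 := le_abs_self B
    have h7 := le_abs_self I0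
    linarith
  -- first claim
  have hA : ∀ r : ℝ, 0 < r → Integrable (fun y => om j (dist (r • e) y)) τ := by
    intro r hr
    obtain ⟨r₁, hr₁, hr₁I⟩ : ∃ r₁ : ℝ, 0 < r₁ ∧ Integrable (fun y => om j (dist (r₁ • e) y)) τ := by
      have h1 := (K1 j (by omega) 1 one_pos).1
      have h2 := h1.and (hposae 1)
      have : NeZero (volume.restrict (Ioc (0 : ℝ) 1)) := by
        refine ⟨fun h => ?_⟩
        have := congrArg (fun μ => μ univ) h
        simp at this
      obtain ⟨u, hu1, hu2⟩ := h2.exists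
      exact ⟨u, hu2, hu1⟩
    set δ := min r r₁ with hδ
    set M := max r r₁ with hMd
    have hδ0 : 0 < δ := lt_min hr hr₁
    have hM0 : 0 < M := lt_max_of_lt_left hr
    obtain ⟨C, hC0, hC⟩ := hPb M hM0
    have hmv : ∀ m, gr τ e (ε m) j r ≤ gj τ e j r₁ + C / δ ^ (n - 1) * |r - r₁| := by
      intro m
      have h1 : ‖gr τ e (ε m) j r - gr τ e (ε m) j r₁‖ ≤ C / δ ^ (n - 1) * ‖r - r₁‖ := by
        refine (convex_Icc δ M).norm_image_sub_le_of_norm_hasDerivWithin_le
          (f' := fun t => P m t / t ^ (n - 1)) ?_ ?_ ?_ ?_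
        · intro x hx
          exact (hder m x (lt_of_lt_of_le hδ0 hx.1)).hasDerivWithinAt
        · intro x hx
          have hx0 := lt_of_lt_of_le hδ0 hx.1
          rw [Real.norm_eq_abs, abs_div, abs_of_pos (pow_pos hx0 (n - 1))]
          exact div_le_div₀ hC0 (hC m x hx0 hx.2) (pow_pos hδ0 _)
            (pow_le_pow_left₀ hδ0.le hx.1 _)
        · exact ⟨min_le_right _ _, le_max_right _ _⟩
        · exact ⟨min_le_left _ _, le_max_left _ _⟩
      have h2 := gr_le hn hτ he (hε m) hr₁ hr₁I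
      rw [Real.norm_eq_abs, Real.norm_eq_abs] at h1
      have h3 := le_abs_self (gr τ e (ε m) j r - gr τ e (ε m) j r₁)
      linarith
    set B := gj τ e j r₁ + C / δ ^ (n - 1) * |r - r₁| with hB
    have hmeas : ∀ m, Measurable fun y : En n =>
        ENNReal.ofReal (om j (Real.sqrt (dist (r • e) y ^ 2 + (ε m) ^ 2))) := fun m =>
      ((om_measurable j).comp (by fun_prop)).ennreal_ofReal
    have hx : r • e ≠ 0 := by
      intro h
      have := congrArg norm h
      rw [norm_smul, he, mul_one, norm_zero, norm_eq_zero] at this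
      exact hr.ne' this
    have hF := lintegral_liminf_le (μ := τ) (u := atTop) hmeas
    have hlim : ∀ᵐ y ∂τ, liminf (fun m => ENNReal.ofReal (om j (Real.sqrt
        (dist (r • e) y ^ 2 + (ε m) ^ 2)))) atTop = ENNReal.ofReal (om j (dist (r • e) y)) := by
      filter_upwards [ae_pos hn hτ hx] with y hy
      have h1 : Tendsto (fun m => Real.sqrt (dist (r • e) y ^ 2 + ε m ^ 2)) atTop
          (𝓝 (Real.sqrt (dist (r • e) y ^ 2 + 0 ^ 2))) :=
        (Real.continuous_sqrt.tendsto _).comp (tendsto_const_nhds.add (hε0.pow 2))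
      have h2 : Real.sqrt (dist (r • e) y ^ 2 + 0 ^ 2) = dist (r • e) y := by
        rw [zero_pow two_ne_zero, add_zero, Real.sqrt_sq hy.le]
      rw [h2] at h1
      exact (ENNReal.tendsto_ofReal (((om_hasDerivAt j hy).continuousAt.tendsto).comp
        h1)).liminf_eq
    rw [lintegral_congr_ae hlim] at hF
    refine ⟨((om_measurable j).comp (by fun_prop)).aestronglyMeasurable, ?_⟩
    rw [hasFiniteIntegral_iff_ofReal (Eventually.of_forall fun y => om_nonneg j dist_nonneg)]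
    refine lt_of_le_of_lt hF ?_
    have hle : ∀ m, ∫⁻ y, ENNReal.ofReal (om j (Real.sqrt
        (dist (r • e) y ^ 2 + (ε m) ^ 2))) ∂τ ≤ ENNReal.ofReal B := by
      intro m
      rw [← ofReal_integral_eq_lintegral_ofReal (reg_int τ _ j (hε m))
        (Eventually.of_forall fun y => om_nonneg j (Real.sqrt_nonneg _))]
      exact ENNReal.ofReal_le_ofReal (hmv m)
    have h8 : liminf (fun m => ∫⁻ y, ENNReal.ofReal (om j (Real.sqrt
        (dist (r • e) y ^ 2 + (ε m) ^ 2))) ∂τ) atTop ≤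
        liminf (fun _ : ℕ => ENNReal.ofReal B) atTop :=
      liminf_le_liminf (Eventually.of_forall hle)
    rw [liminf_const] at h8
    exact lt_of_le_of_lt h8 ENNReal.ofReal_lt_top
  refine ⟨hA, ?_, ?_, ?_, ?_, ?_⟩
  · intro r hr
    exact (intervalIntegrable_iff_integrableOn_Ioc_of_le hr.le).2 (K1 j (by omega) r hr).2
  · intro r hr
    exact (intervalIntegrable_iff_integrableOn_Ioc_of_le hr.le).2 (K1 (j + 1) hj r hr).2
  · have h1 : ∀ m : ℕ, ∀ᵐ u : ℝ, u ∈ Ioc (0 : ℝ) ((m : ℝ) + 1) →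
        Integrable (fun y => om (j + 1) (dist (u • e) y)) τ := fun m =>
      (ae_restrict_iff' measurableSet_Ioc).1 (K1 (j + 1) hj ((m : ℝ) + 1) (by positivity)).1
    rw [← ae_all_iff] at h1
    filter_upwards [h1] with u hu hu0
    obtain ⟨m, hm⟩ := exists_nat_ge u
    exact hu m ⟨hu0, by linarith⟩
  · intro r hr
    have hr' : (0 : ℝ) < r := hr
    have h1 : ContinuousOn (fun x => ∫ u in (0 : ℝ)..x, u ^ (n - 1) *
        (gj τ e j u - a * gj τ e (j + 1) u)) (uIcc 0 (r + 1)) := by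
      refine intervalIntegral.continuousOn_primitive_interval ?_
      rw [uIcc_of_le (by linarith), integrableOn_Icc_iff_integrableOn_Ioc]
      exact hpeI (r + 1) (by linarith)
    rw [uIcc_of_le (by linarith)] at h1
    exact (h1.continuousAt (Icc_mem_nhds hr' (by linarith))).continuousWithinAt
  · intro r hr
    have hM0 : (0 : ℝ) < 2 * r := by linarith
    have hU : TendstoUniformlyOn (fun m t => P m t / t ^ (n - 1))
        (fun t => pe' t / t ^ (n - 1)) atTop (Ioo (r / 2) (2 * r)) := by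
      rw [Metric.tendstoUniformlyOn_iff]
      intro η hη
      have h1 : Tendsto (fun m => (E1 (2 * r) m + E2 (2 * r) m) / (r / 2) ^ (n - 1)) atTop
          (𝓝 ((0 + 0) / (r / 2) ^ (n - 1))) :=
        ((hE1lim _ hM0).add (hE2lim _ hM0)).div_const _
      rw [add_zero, zero_div] at h1
      filter_upwards [h1.eventually (gt_mem_nhds hη)] with m hm t ht
      have ht0 : 0 < t := by linarith [ht.1]
      have h2 := hdiff (2 * r) hM0 m t ht0 ht.2.le
      rw [dist_comm, Real.dist_eq, ← sub_div, abs_div, abs_of_pos (pow_pos ht0 (n - 1))]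
      refine lt_of_le_of_lt ?_ hm
      exact div_le_div₀ (add_nonneg (hE1nn _ _) (hE2nn _ _)) h2 (by positivity)
        (pow_le_pow_left₀ (by linarith) ht.1.le _)
    refine hasDerivAt_of_tendstoUniformlyOn isOpen_Ioo hU ?_ ?_
      (⟨by linarith, by linarith⟩ : r ∈ Ioo (r / 2) (2 * r))
      (f := fun m => gr τ e (ε m) j)
    · refine Eventually.of_forall fun m t ht => ?_
      exact hder m t (by linarith [ht.1])
    · intro t ht
      have ht0 : 0 < t := by linarith [ht.1]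
      exact gr_tendsto hn hτ he hε hε0 ht0 (hA t ht0)

end Pool.Agent.Helper87.OB
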